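import Pool.Agent.Helper81.LT.Inc

namespace Pool.Agent.Helper8.LT

open Pool.Agent.Helper81.LT
open Nat.Partrec (Code)

theorem ppt (h : DIAG) : PPT := by
  intro k
  have hfin : Finite {c : Code // Encodable.encode c < k} := by
    apply Finite.of_injective (β := Fin k) (fun c => ⟨Encodable.encode c.1, c.2⟩)
    intro c d hcd
    apply Subtype.ext
    apply Encodable.encode_injective
    simpa using hcd
  obtain ⟨X, h0, h1, h2⟩ := h {c : Code // Encodable.encode c < k} (fun c => Rc c.1) k
  exact ⟨X (2 * k + 1), X, h0, fun i _ => h1 i, le_rfl,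
    fun c hc _ i _ w hw hw' => h2 ⟨c, hc⟩ i w hw hw'⟩

end Pool.Agent.Helper8.LT
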